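import Pool.Agent.LibSchur53.Growth

set_option autoImplicit false

namespace Pool.Agent.Results.MP_43d3f2_co.GrowthRate

open Pool.Agent.LibSchur53 Filter Topology

theorem result : ∃ L : EReal,
    Tendsto (fun n : ℕ => ((Real.log (s n) / n : ℝ) : EReal)) atTop (𝓝 L) ∧
    Tendsto (fun n : ℕ => ((Real.log (t n) / n : ℝ) : EReal)) atTop (𝓝 L) :=
  ⟨lim, tendsto_s, tendsto_t⟩

end Pool.Agent.Results.MP_43d3f2_co.GrowthRate
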