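import Pool.Agent.LibSchur53.T111
import Pool.Agent.LibSchur53.Growth

set_option autoImplicit false

namespace Pool.Agent.Results.MP_43d3f2_co.LowerBound

open Pool.Agent.LibSchur53

theorem result : ∃ c : ℝ, 0 < c ∧ ∀ n : ℕ, 1 ≤ n → c * (111 : ℝ) ^ ((n : ℝ) / 4) ≤ (t n : ℝ) := by
  refine ⟨(111 : ℝ) ^ (-(5 : ℝ) / 4), by positivity, ?_⟩
  intro n hn
  rw [← Real.rpow_add (by norm_num)]
  rcases Nat.lt_or_ge n 2 with h | h
  · have h1 : n = 1 := by omega
    subst h1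
    have h2 : (1 : ℝ) ≤ t 1 := by exact_mod_cast t_pos (n := 1) le_rfl
    have h3 : (111 : ℝ) ^ (-(5 : ℝ) / 4 + ((1 : ℕ) : ℝ) / 4) ≤ 1 := by
      apply Real.rpow_le_one_of_one_le_of_nonpos (by norm_num)
      norm_num
    linarith
  · obtain ⟨j, i, hi1, hi2, hji⟩ : ∃ j i, 1 ≤ i ∧ i ≤ 4 ∧ n = 4 * j + i + 1 :=
      ⟨(n - 2) / 4, (n - 2) % 4 + 1, by omega, by omega, by omega⟩
    have h1 := s_pow (n := i) (j := j) hi1
    have h2 := s_le_t (n := 4 * j + i) (by omega)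
    rw [← hji] at h2
    have h3 : ((111 : ℝ) ^ j) ≤ t n := by
      have : 111 ^ j ≤ t n := by omega
      exact_mod_cast this
    refine le_trans ?_ h3
    rw [← Real.rpow_natCast]
    apply Real.rpow_le_rpow_of_exponent_le (by norm_num)
    have h4 : (n : ℝ) = 4 * j + i + 1 := by exact_mod_cast hji
    have h5 : (i : ℝ) ≤ 4 := by exact_mod_cast hi2
    rw [h4]
    linarith

end Pool.Agent.Results.MP_43d3f2_co.LowerBound
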