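import Pool.Agent.LibSchur53.Basic

set_option autoImplicit false

namespace Pool.Agent.Results.MP_43d3f2_co.Recursion

open Pool.Agent.LibSchur53

theorem result (n : ℕ) (hn : 1 ≤ n) : 3 * s n ≤ t (n + 1) + 1 := recursion hn

end Pool.Agent.Results.MP_43d3f2_co.Recursion
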